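import Mathlib

/-!
Behaviour of the Weil height under field extension, and `h (x ^ n) = n * h x` for the absolute
height of an algebraic number.
-/

namespace Pool.Agent.P.MP_8d2e9f_nt

open NumberField Height Module

theorem prod_place_eq_prod_emb {K : Type*} [Field K] [NumberField K]
    (f : InfinitePlace K → ℝ) :
    ∏ v : InfinitePlace K, f v ^ v.mult = ∏ φ : K →+* ℂ, f (InfinitePlace.mk φ) := by
  classical
  rw [← Finset.univ.prod_fiberwise (fun φ : K →+* ℂ => InfinitePlace.mk φ)]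
  refine Finset.prod_congr rfl fun v _ => ?_
  rw [← InfinitePlace.card_filter_mk_eq v, ← Finset.prod_const]
  refine Finset.prod_congr rfl fun φ hφ => ?_
  rw [(Finset.mem_filter.mp hφ).2]

theorem prod_emb_ext {K L : Type*} [Field K] [NumberField K] [Field L] [NumberField L]
    [Algebra K L] (g : (K →+* ℂ) → ℝ) :
    ∏ φ : L →+* ℂ, g (φ.comp (algebraMap K L)) = (∏ ψ : K →+* ℂ, g ψ) ^ finrank K L := by
  classical
  have h1 : ∏ φ : L →+* ℂ, g (φ.comp (algebraMap K L)) =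
      ∏ σ : L →ₐ[ℚ] ℂ, g ((σ : L →+* ℂ).comp (algebraMap K L)) := by
    refine Fintype.prod_equiv (RingHom.equivRatAlgHom _ _) _ _ fun φ => ?_
    rfl
  have h2 : ∏ ψ : K →+* ℂ, g ψ = ∏ σ : K →ₐ[ℚ] ℂ, g (σ : K →+* ℂ) := by
    refine Fintype.prod_equiv (RingHom.equivRatAlgHom _ _) _ _ fun φ => ?_
    rfl
  rw [h1, h2]
  rw [Fintype.prod_equiv (algHomEquivSigma (A := ℚ) (B := K) (C := L) (D := ℂ))
    (fun σ : L →ₐ[ℚ] ℂ => g ((σ : L →+* ℂ).comp (algebraMap K L)))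
    (fun σ => g (σ.1 : K →+* ℂ)),
    ← Finset.univ_sigma_univ, Finset.prod_sigma, ← Finset.prod_pow]
  · refine Finset.prod_congr rfl fun σ _ => ?_
    let _ : Algebra K ℂ := σ.toRingHom.toAlgebra
    simp_rw [Finset.prod_const]
    congr
    exact AlgHom.card K L ℂ
  · intro σ
    rfl

theorem mulHeight_pair_eq {K : Type*} [Field K] [NumberField K] (a : 𝓞 K) {n : ℕ} (hn : n ≠ 0) :
    mulHeight ![(a : K), (n : K)] * (Ideal.absNorm (Ideal.span {a, (n : 𝓞 K)}) : ℝ) =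
      ∏ φ : K →+* ℂ, max ‖φ a‖ (n : ℝ) := by
  have hx : (![(a : K), (n : K)] : Fin 2 → K) ≠ 0 := by simp [hn]
  have hx' : (![a, (n : 𝓞 K)] : Fin 2 → 𝓞 K) ≠ 0 := by simp [hn]
  have hv (i : Fin 2) : ((![a, (n : 𝓞 K)] i : 𝓞 K) : K) = ![(a : K), (n : K)] i := by
    fin_cases i <;> rfl
  have h := absNorm_mul_finprod_finitePlace_eq_one hx'
  simp only [hv] at h
  have hr : Set.range (![a, (n : 𝓞 K)] : Fin 2 → 𝓞 K) = {a, (n : 𝓞 K)} := by
    simp [Matrix.range_cons, Set.pair_comm]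
  rw [hr] at h
  rw [NumberField.mulHeight_eq hx, mul_assoc, mul_comm (finprod _), h, mul_one,
    prod_place_eq_prod_emb (fun v => ⨆ i, v (![(a : K), (n : K)] i))]
  refine Finset.prod_congr rfl fun φ _ => ?_
  apply le_antisymm
  · refine ciSup_le fun i => ?_
    fin_cases i
    · simp [InfinitePlace.apply]
    · simp [InfinitePlace.apply]
  · refine max_le ?_ ?_
    · exact Finite.le_ciSup_of_le 0 (by simp [InfinitePlace.apply])
    · exact Finite.le_ciSup_of_le 1 (by simp [InfinitePlace.apply])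

theorem mulHeight₁_algebraMap {K L : Type*} [Field K] [NumberField K] [Field L] [NumberField L]
    [Algebra K L] (x : K) :
    mulHeight₁ (algebraMap K L x) = mulHeight₁ x ^ finrank K L := by
  obtain ⟨n, hn, a, ha, -⟩ := exists_nat_ne_zero_exists_integer_mul_eq_and_absNorm_span_eq_pow x
  have hnK : (n : K) ≠ 0 := by exact_mod_cast hn
  have hx : x = (a : K) / n := by rw [← ha]; field_simp
  set b : 𝓞 L := algebraMap (𝓞 K) (𝓞 L) a with hb
  have hbL : (b : L) = algebraMap K L a := by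
    rw [hb]; rfl
  have hxL : algebraMap K L x = (b : L) / n := by rw [hx, map_div₀, map_natCast, hbL]
  have h1 := mulHeight_pair_eq a hn
  have h2 := mulHeight_pair_eq b hn
  have h3 : Ideal.span {b, (n : 𝓞 L)} =
      (Ideal.span {a, (n : 𝓞 K)}).map (algebraMap (𝓞 K) (𝓞 L)) := by
    rw [Ideal.map_span, Set.image_pair, map_natCast]
  have h4 : finrank (𝓞 K) (𝓞 L) = finrank K L := by
    exact (IsFractionRing.finrank_eq (𝓞 K) K (𝓞 L) L).symm
  rw [h3, Ideal.absNorm_algebraMap, h4] at h2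
  have h5 : ∏ φ : L →+* ℂ, max ‖φ b‖ (n : ℝ) = (∏ φ : K →+* ℂ, max ‖φ a‖ (n : ℝ)) ^ finrank K L := by
    rw [← prod_emb_ext (L := L) (fun φ : K →+* ℂ => max ‖φ a‖ (n : ℝ))]
    refine Finset.prod_congr rfl fun φ _ => ?_
    rw [hbL]; rfl
  have hN : (Ideal.absNorm (Ideal.span {a, (n : 𝓞 K)}) : ℝ) ≠ 0 := by
    have : Ideal.span {a, (n : 𝓞 K)} ≠ ⊥ := by
      intro h
      have : (n : 𝓞 K) ∈ Ideal.span {a, (n : 𝓞 K)} := Ideal.subset_span (by simp)
      rw [h, Ideal.mem_bot] at this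
      exact hn (by exact_mod_cast this)
    exact_mod_cast Ideal.absNorm_eq_zero_iff.not.mpr this
  rw [h5, ← h1, mul_pow, Nat.cast_pow] at h2
  rw [hxL, hx, mulHeight₁_div_eq_mulHeight, mulHeight₁_div_eq_mulHeight]
  exact mul_right_cancel₀ (pow_ne_zero _ hN) h2

open IntermediateField in
theorem absLogHeight₁_eq {Ω : Type*} [Field Ω] [CharZero Ω] (E : IntermediateField ℚ Ω)
    [FiniteDimensional ℚ E] (y : Ω) (hy : y ∈ E) :
    haveI : NumberField E := {}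
    absLogHeight₁ y = logHeight₁ (⟨y, hy⟩ : E) / finrank ℚ E := by
  have : NumberField E := {}
  have hint : IsIntegral ℚ y := by
    have : IsIntegral ℚ (⟨y, hy⟩ : E) := Algebra.IsIntegral.isIntegral _
    exact this.map E.val
  have : FiniteDimensional ℚ ℚ⟮y⟯ := adjoin.finiteDimensional hint
  have : NumberField ℚ⟮y⟯ := {}
  have hle : ℚ⟮y⟯ ≤ E := by simpa using hy
  let : Algebra ℚ⟮y⟯ E := (inclusion hle).toRingHom.toAlgebra
  have hgen : (⟨y, hy⟩ : E) = algebraMap ℚ⟮y⟯ E (AdjoinSimple.gen ℚ y) := rfl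
  have hmul : finrank ℚ ℚ⟮y⟯ * finrank ℚ⟮y⟯ E = finrank ℚ E := finrank_mul_finrank ℚ ℚ⟮y⟯ E
  have hpos1 : (0 : ℝ) < finrank ℚ ℚ⟮y⟯ := by exact_mod_cast finrank_pos
  have hpos2 : (0 : ℝ) < finrank ℚ⟮y⟯ E := by exact_mod_cast finrank_pos
  rw [absLogHeight₁, absMulHeight₁, dif_pos hint, logHeight₁_eq_log_mulHeight₁, hgen,
    mulHeight₁_algebraMap, Real.log_rpow (mulHeight₁_pos _), Real.log_pow, ← hmul]
  push_cast
  field_simp

open IntermediateField in
theorem absLogHeight₁_pow {Ω : Type*} [Field Ω] [CharZero Ω] {y : Ω} (hint : IsIntegral ℚ y)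
    (n : ℕ) : absLogHeight₁ (y ^ n) = n * absLogHeight₁ y := by
  have : FiniteDimensional ℚ ℚ⟮y⟯ := adjoin.finiteDimensional hint
  have : NumberField ℚ⟮y⟯ := {}
  have hy : y ∈ ℚ⟮y⟯ := mem_adjoin_simple_self ℚ y
  rw [absLogHeight₁_eq ℚ⟮y⟯ y hy, absLogHeight₁_eq ℚ⟮y⟯ (y ^ n) (pow_mem hy n)]
  have : (⟨y ^ n, pow_mem hy n⟩ : ℚ⟮y⟯) = (⟨y, hy⟩ : ℚ⟮y⟯) ^ n := rfl
  rw [this, logHeight₁_pow, mul_div_assoc]

end Pool.Agent.P.MP_8d2e9f_nt
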