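import Mathlib

/-!
A polynomial of degree at least two over a number field has no injective backward orbit there.
-/

namespace Pool.Agent.P.MP_8d2e9f_nt

open Polynomial Filter NumberField

theorem exists_escape_radius (g : ℂ[X]) (hd : 2 ≤ g.natDegree) :
    ∃ R : ℝ, ∀ z : ℂ, R ≤ ‖z‖ → ‖z‖ ≤ ‖g.eval z‖ := by
  have h1 : 0 < g.divX.degree := by
    rw [← natDegree_pos_iff_degree_pos, natDegree_divX_eq_natDegree_tsub_one]
    omega
  have h2 : Tendsto (fun z : ℂ => ‖g.divX.eval z‖) (comap norm atTop) atTop :=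
    g.divX.tendsto_norm_atTop h1 (z := fun z => z) tendsto_comap
  have h3 := h2.eventually (eventually_ge_atTop 2)
  rw [eventually_comap, eventually_atTop] at h3
  obtain ⟨R, hR⟩ := h3
  refine ⟨max R ‖g.coeff 0‖, fun z hz => ?_⟩
  have h4 : 2 ≤ ‖g.divX.eval z‖ := hR ‖z‖ ((le_max_left _ _).trans hz) z rfl
  have h5 : ‖g.coeff 0‖ ≤ ‖z‖ := (le_max_right _ _).trans hz
  have h6 : g.eval z = z * g.divX.eval z + g.coeff 0 := by
    conv_lhs => rw [← X_mul_divX_add g]
    rw [eval_add, eval_mul, eval_X, eval_C]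
  have h7 : ‖z * g.divX.eval z‖ ≤ ‖g.eval z‖ + ‖g.coeff 0‖ := by
    have : z * g.divX.eval z = g.eval z - g.coeff 0 := by rw [h6]; ring
    rw [this]; exact norm_sub_le _ _
  rw [norm_mul] at h7
  nlinarith [norm_nonneg z]

theorem exists_common_denominator {K : Type*} [Field K] [Algebra ℚ K] [Algebra.IsAlgebraic ℚ K]
    (s : Finset K) : ∃ D : ℕ, D ≠ 0 ∧ ∀ a ∈ s, IsIntegral ℤ ((D : K) * a) := by
  have : CharZero K := algebraRat.charZero K
  have : Algebra.IsAlgebraic ℤ K := ⟨fun x =>
    (IsFractionRing.isAlgebraic_iff ℤ ℚ K).mpr (Algebra.IsAlgebraic.isAlgebraic x)⟩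
  obtain ⟨y, hy, h⟩ := Algebra.IsAlgebraic.exists_integral_multiples ℤ s
  refine ⟨y.natAbs, Int.natAbs_ne_zero.2 hy, fun a ha => ?_⟩
  have h1 := h a ha
  rw [zsmul_eq_mul] at h1
  rcases Int.natAbs_eq y with h2 | h2
  · have : ((y.natAbs : ℕ) : K) = (y : K) := by
      conv_rhs => rw [h2]
      simp
    rwa [this]
  · have : ((y.natAbs : ℕ) : K) = -(y : K) := by
      conv_rhs => rw [h2]
      simp
    rw [this, neg_mul]
    exact h1.neg

theorem no_backward_orbit {K : Type*} [Field K] [NumberField K] (g : K[X]) (hd : 2 ≤ g.natDegree)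
    (x : ℕ → K) (hx : ∀ i, g.eval (x (i + 1)) = x i) : ¬ Function.Injective x := by
  classical
  intro hinj
  have hg0 : g ≠ 0 := by rintro rfl; simp at hd
  have hl : g.leadingCoeff ≠ 0 := leadingCoeff_ne_zero.2 hg0
  set g₁ : K[X] := g * C g.leadingCoeff⁻¹ with hg₁
  have hmon : g₁.Monic := monic_mul_leadingCoeff_inv hg0
  have hdeg : g₁.natDegree = g.natDegree := natDegree_mul_leadingCoeff_inv _ hg0
  obtain ⟨D, hD0, hD⟩ := exists_common_denominator
    (insert (x 0) (insert g.leadingCoeff⁻¹ g₁.coeffs))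
  have hDK : (D : K) ≠ 0 := by exact_mod_cast hD0
  have hDint : IsIntegral ℤ (D : K) := isIntegral_natCast D
  have hint : ∀ i, IsIntegral ℤ ((D : K) * x i) := by
    intro i
    induction i with
    | zero => exact hD _ (by simp)
    | succ i ih =>
      refine IsIntegral.of_aeval_monic_of_isIntegral_coeff (p := g₁.scaleRoots D)
        ((monic_scaleRoots_iff _).2 hmon) (by rw [natDegree_scaleRoots, hdeg]; omega) ?_ ?_
      · rw [scaleRoots_eval_mul, hdeg, hg₁, eval_mul, eval_C, hx]
        obtain ⟨e, he⟩ : ∃ e, g.natDegree = e + 2 := ⟨g.natDegree - 2, by omega⟩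
        have : (D : K) ^ g.natDegree * (x i * g.leadingCoeff⁻¹) =
            (D : K) ^ e * (((D : K) * x i) * ((D : K) * g.leadingCoeff⁻¹)) := by
          rw [he]; ring
        rw [this]
        exact (hDint.pow e).mul (ih.mul (hD _ (by simp)))
      · intro j
        rw [coeff_scaleRoots]
        rcases lt_trichotomy j g₁.natDegree with h | h | h
        · obtain ⟨e, he⟩ : ∃ e, g₁.natDegree - j = e + 1 := ⟨g₁.natDegree - j - 1, by omega⟩
          by_cases hc : g₁.coeff j = 0
          · rw [hc, zero_mul]; exact isIntegral_zero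
          · have : g₁.coeff j * (D : K) ^ (g₁.natDegree - j) =
                (D : K) ^ e * ((D : K) * g₁.coeff j) := by
              rw [he]; ring
            rw [this]
            refine (hDint.pow e).mul (hD _ ?_)
            exact Finset.mem_insert_of_mem (Finset.mem_insert_of_mem (coeff_mem_coeffs hc))
        · rw [h, hmon.coeff_natDegree, Nat.sub_self, pow_zero, one_mul]; exact isIntegral_one
        · rw [coeff_eq_zero_of_natDegree_lt h, zero_mul]; exact isIntegral_zero
  have hbd : ∀ φ : K →+* ℂ, ∃ B : ℝ, ∀ i, ‖φ (x i)‖ ≤ B := by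
    intro φ
    obtain ⟨R, hR⟩ := exists_escape_radius (g.map φ) (by rwa [natDegree_map])
    refine ⟨max R ‖φ (x 0)‖, fun i => ?_⟩
    induction i with
    | zero => exact le_max_right _ _
    | succ i ih =>
      rcases le_total R ‖φ (x (i + 1))‖ with h | h
      · have := hR _ h
        rw [eval_map, eval₂_at_apply, hx] at this
        exact this.trans ih
      · exact h.trans (le_max_left _ _)
  choose B hB using hbd
  obtain ⟨B₀, hB₀⟩ := (Set.finite_range B).bddAbove
  have hfin := Embeddings.finite_of_norm_le K ℂ (D * B₀)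
  refine Set.infinite_of_injective_forall_mem (f := fun i => (D : K) * x i) ?_ ?_ hfin
  · intro i j hij
    exact hinj (mul_left_cancel₀ hDK hij)
  · intro i
    refine ⟨hint i, fun φ => ?_⟩
    rw [map_mul, map_natCast, norm_mul, Complex.norm_natCast]
    gcongr
    exact (hB φ i).trans (hB₀ ⟨φ, rfl⟩)

theorem finite_fixed_iterate {K : Type*} [Field K] (g : K[X]) (hd : 2 ≤ g.natDegree) {N : ℕ}
    (hN : 0 < N) : {y : K | (fun x => g.eval x)^[N] y = y}.Finite := by
  classical
  set P : K[X] := g.comp^[N] X - X with hP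
  have h1 : (g.comp^[N] X).natDegree = g.natDegree ^ N := by
    rw [natDegree_iterate_comp, natDegree_X, mul_one]
  have h2 : 1 < g.natDegree ^ N := Nat.one_lt_pow hN.ne' (by omega)
  have hP0 : P ≠ 0 := by
    intro h
    rw [hP, sub_eq_zero] at h
    rw [h, natDegree_X] at h1
    omega
  refine (P.roots.toFinset.finite_toSet).subset fun y hy => ?_
  rw [Finset.mem_coe, Multiset.mem_toFinset, mem_roots hP0, IsRoot.def, hP, eval_sub,
    iterate_comp_eval, eval_X, sub_eq_zero]
  exact hy

end Pool.Agent.P.MP_8d2e9f_nt
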