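import Mathlib

/-!
Periods of periodic points of a polynomial over `ℤ_[p]`, `p` odd, divide `(p ^ 2)! * (p - 1)`.
-/

namespace Pool.Agent.P.MP_8d2e9f_nt

open Polynomial Finset

/-- The `n`-th compositional iterate of a polynomial. -/
noncomputable def iterPoly {R : Type*} [CommRing R] (H : R[X]) (n : ℕ) : R[X] := H.comp^[n] X

theorem eval_iterPoly {R : Type*} [CommRing R] (H : R[X]) (n : ℕ) (y : R) :
    (iterPoly H n).eval y = (fun x => H.eval x)^[n] y := by
  simp [iterPoly, iterate_comp_eval]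

theorem eval_iterPoly_fun {R : Type*} [CommRing R] (H : R[X]) (n : ℕ) :
    (fun x => (iterPoly H n).eval x) = (fun x => H.eval x)^[n] := by
  funext y; exact eval_iterPoly H n y

theorem iterPoly_succ {R : Type*} [CommRing R] (H : R[X]) (n : ℕ) :
    iterPoly H (n + 1) = H.comp (iterPoly H n) := by
  simp [iterPoly, Function.iterate_succ_apply']

theorem iterate_sub_eq {R : Type*} [CommRing R] (H : R[X]) (y : R) (k : ℕ) :
    ∃ c : R, (fun x => H.eval x)^[k] y - y =
      (H.eval y - y) * (∑ i ∈ range k, (H.derivative.eval y) ^ i + c * (H.eval y - y)) := by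
  induction k with
  | zero => exact ⟨0, by simp⟩
  | succ k ih =>
    obtain ⟨c, hc⟩ := ih
    set w := (fun x => H.eval x)^[k] y with hw
    obtain ⟨κ, hκ⟩ := H.binomExpansion y (w - y)
    have h1 : y + (w - y) = w := by ring
    rw [h1] at hκ
    set δ := H.eval y - y with hδ
    set μ := H.derivative.eval y
    set S := ∑ i ∈ range k, μ ^ i
    refine ⟨μ * c + κ * (S + c * δ) ^ 2, ?_⟩
    rw [Function.iterate_succ_apply', ← hw, geom_sum_succ]
    have h2 : H.eval y = y + δ := by rw [hδ]; ring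
    change H.eval w - y = _
    rw [hκ, hc, h2]
    ring

theorem dvd_iterate_sub {R : Type*} [CommRing R] (H : R[X]) (y : R) (k : ℕ) :
    H.eval y - y ∣ (fun x => H.eval x)^[k] y - y := by
  obtain ⟨c, hc⟩ := iterate_sub_eq H y k
  exact ⟨_, hc⟩

theorem dvd_derivative_iterPoly {R : Type*} [CommRing R] (H : R[X]) (y : R) (k : ℕ) :
    H.eval y - y ∣ (iterPoly H k).derivative.eval y - (H.derivative.eval y) ^ k := by
  induction k with
  | zero => simp [iterPoly]
  | succ k ih =>
    rw [iterPoly_succ, derivative_comp, eval_mul, eval_comp, eval_iterPoly]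
    have h1 : H.eval y - y ∣ H.derivative.eval ((fun x => H.eval x)^[k] y) - H.derivative.eval y :=
      (dvd_iterate_sub H y k).trans (sub_dvd_eval_sub _ _ _)
    have : (iterPoly H k).derivative.eval y * H.derivative.eval ((fun x => H.eval x)^[k] y) -
        (H.derivative.eval y) ^ (k + 1) =
        (iterPoly H k).derivative.eval y *
          (H.derivative.eval ((fun x => H.eval x)^[k] y) - H.derivative.eval y) +
        ((iterPoly H k).derivative.eval y - (H.derivative.eval y) ^ k) * H.derivative.eval y := by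
      ring
    rw [this]
    exact dvd_add (h1.mul_left _) (ih.mul_right _)

section abstract

variable {R : Type*} [CommRing R] [IsDomain R] {p : ℕ} [Fact p.Prime]

theorem fixed_of_periodic (hodd : Odd p) (hp0 : (p : R) ≠ 0) (φ : R →+* ZMod p)
    (hφ : ∀ x, φ x = 0 ↔ (p : R) ∣ x) (y : R) (k : ℕ) :
    ∀ H : R[X], 0 < k → (p : R) ^ 2 ∣ H.eval y - y → (p : R) ∣ H.derivative.eval y - 1 →
      (fun x => H.eval x)^[k] y = y → H.eval y = y := by
  have hp : p.Prime := Fact.out
  induction k using Nat.strong_induction_on with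
  | _ k ih =>
    intro H hk h2 h1 hper
    have hpd : (p : R) ∣ H.eval y - y := (dvd_pow_self _ two_ne_zero).trans h2
    have hφδ : φ (H.eval y - y) = 0 := (hφ _).2 hpd
    have hφμ : φ (H.derivative.eval y) = 1 := by
      have := (hφ _).2 h1
      rwa [map_sub, map_one, sub_eq_zero] at this
    by_cases hpk : p ∣ k
    · obtain ⟨k', rfl⟩ := hpk
      have hk' : 0 < k' := Nat.pos_of_mul_pos_left hk
      have hlt : k' < p * k' := by nlinarith [hp.two_le]
      have hfix : (iterPoly H p).eval y = y := by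
        refine ih k' hlt (iterPoly H p) hk' ?_ ?_ ?_
        · rw [eval_iterPoly]; exact h2.trans (dvd_iterate_sub H y p)
        · rw [← hφ, map_sub, map_one, sub_eq_zero]
          have := (hφ _).2 (hpd.trans (dvd_derivative_iterPoly H y p))
          rw [map_sub, sub_eq_zero, map_pow, hφμ, one_pow] at this
          exact this
        · rw [eval_iterPoly_fun, ← Function.iterate_mul]; exact hper
      rw [eval_iterPoly] at hfix
      obtain ⟨c, hc⟩ := iterate_sub_eq H y p
      rw [hfix, sub_self] at hc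
      rcases mul_eq_zero.1 hc.symm with h | h
      · exact sub_eq_zero.1 h
      · exfalso
        obtain ⟨a, ha⟩ := h1
        have hμ : H.derivative.eval y = 1 + p * a := by rw [← ha]; ring
        have h3 := odd_sq_dvd_geom_sum₂_sub (R := R) (a := 1) (b := a) hodd
        simp only [one_pow, mul_one] at h3
        rw [← hμ] at h3
        obtain ⟨e, he⟩ := h3
        obtain ⟨d, hd⟩ := h2
        have h4 : (p : R) * (1 + p * (e + c * d)) = 0 := by
          rw [← h, hd, sub_eq_iff_eq_add.1 he]; ring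
        rcases mul_eq_zero.1 h4 with h5 | h5
        · exact hp0 h5
        · have := congrArg φ h5
          simp at this
    · obtain ⟨c, hc⟩ := iterate_sub_eq H y k
      rw [hper, sub_self] at hc
      rcases mul_eq_zero.1 hc.symm with h | h
      · exact sub_eq_zero.1 h
      · exfalso
        have := congrArg φ h
        rw [map_add, map_mul, hφδ, map_sum] at this
        simp only [map_pow, hφμ, one_pow, sum_const, card_range, nsmul_eq_mul, mul_one, mul_zero,
          add_zero, map_zero] at this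
        exact hpk ((ZMod.natCast_eq_zero_iff k p).1 this)

theorem period_bound (hodd : Odd p) (hp0 : (p : R) ≠ 0) (φ : R →+* ZMod p)
    (hφ : ∀ x, φ x = 0 ↔ (p : R) ∣ x) (ψ : R →+* ZMod (p ^ 2))
    (hψ : ∀ x, ψ x = 0 → (p : R) ^ 2 ∣ x) (G : R[X]) (y : R) {k : ℕ} (hk : 0 < k)
    (hper : (fun x => G.eval x)^[k] y = y) :
    (fun x => G.eval x)^[(p ^ 2).factorial * (p - 1)] y = y := by
  have hp : p.Prime := Fact.out
  have : NeZero (p ^ 2) := ⟨pow_ne_zero _ hp.ne_zero⟩
  set m := (p ^ 2).factorial with hm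
  have hsemi : Function.Semiconj ψ (fun x => G.eval x) (fun x => (G.map ψ).eval x) := by
    intro x
    simp [eval_map, eval₂_at_apply]
  have hbar : (ψ y) ∈ Function.periodicPts (fun x => (G.map ψ).eval x) := by
    refine ⟨k, hk, ?_⟩
    change (fun x => (G.map ψ).eval x)^[k] (ψ y) = ψ y
    rw [← (hsemi.iterate_right k) y, hper]
  have hbar2 := Function.isPeriodicPt_factorial_card_of_mem_periodicPts hbar
  rw [ZMod.card] at hbar2
  change (fun x => (G.map ψ).eval x)^[m] (ψ y) = ψ y at hbar2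
  rw [← (hsemi.iterate_right m) y] at hbar2
  set G₁ := iterPoly G m with hG₁
  have h2 : (p : R) ^ 2 ∣ G₁.eval y - y := by
    apply hψ
    rw [map_sub, hG₁, eval_iterPoly, hbar2, sub_self]
  have hpd : (p : R) ∣ G₁.eval y - y := (dvd_pow_self _ two_ne_zero).trans h2
  have hper₁ : (fun x => G₁.eval x)^[k] y = y := by
    rw [hG₁, eval_iterPoly_fun, ← Function.iterate_mul, mul_comm, Function.iterate_mul]
    exact Function.iterate_fixed hper m
  rw [Function.iterate_mul, ← eval_iterPoly_fun, ← hG₁]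
  by_cases hl : φ (G₁.derivative.eval y) = 0
  · obtain ⟨c, hc⟩ := iterate_sub_eq G₁ y k
    rw [hper₁, sub_self] at hc
    rcases mul_eq_zero.1 hc.symm with h | h
    · exact Function.iterate_fixed (f := fun x => G₁.eval x) (sub_eq_zero.1 h) _
    · exfalso
      have := congrArg φ h
      obtain ⟨k', rfl⟩ := Nat.exists_eq_succ_of_ne_zero hk.ne'
      rw [map_add, map_mul, (hφ _).2 hpd, geom_sum_succ, map_add, map_mul, hl] at this
      simp at this
  · rw [← eval_iterPoly]
    refine fixed_of_periodic hodd hp0 φ hφ y k (iterPoly G₁ (p - 1)) hk ?_ ?_ ?_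
    · rw [eval_iterPoly]; exact h2.trans (dvd_iterate_sub G₁ y _)
    · rw [← hφ, map_sub, map_one, sub_eq_zero]
      have := (hφ _).2 (hpd.trans (dvd_derivative_iterPoly G₁ y (p - 1)))
      rw [map_sub, sub_eq_zero, map_pow, ZMod.pow_card_sub_one_eq_one hl] at this
      exact this
    · rw [eval_iterPoly_fun, ← Function.iterate_mul, mul_comm, Function.iterate_mul]
      exact Function.iterate_fixed hper₁ _

end abstract

theorem period_bound_padicInt {p : ℕ} [Fact p.Prime] (hodd : Odd p) (G : ℤ_[p][X]) (y : ℤ_[p])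
    {k : ℕ} (hk : 0 < k) (hper : (fun x => G.eval x)^[k] y = y) :
    (fun x => G.eval x)^[(p ^ 2).factorial * (p - 1)] y = y := by
  have hp : p.Prime := Fact.out
  refine period_bound hodd (by exact_mod_cast hp.ne_zero) PadicInt.toZMod ?_
    (PadicInt.toZModPow 2) ?_ G y hk hper
  · intro x
    rw [← RingHom.mem_ker, PadicInt.ker_toZMod, PadicInt.maximalIdeal_eq_span_p,
      Ideal.mem_span_singleton]
  · intro x hx
    rw [← RingHom.mem_ker, PadicInt.ker_toZModPow, Ideal.mem_span_singleton] at hx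
    exact hx

theorem norm_eval_of_one_lt {p : ℕ} [Fact p.Prime] (g : ℚ_[p][X]) (hc : ∀ i, ‖g.coeff i‖ ≤ 1)
    (hl : ‖g.leadingCoeff‖ = 1) (hd : 2 ≤ g.natDegree) {z : ℚ_[p]} (hz : 1 < ‖z‖) :
    ‖z‖ < ‖g.eval z‖ := by
  set d := g.natDegree with hdd
  have h1 : g.eval z = ∑ i ∈ range d, g.coeff i * z ^ i + g.leadingCoeff * z ^ d := by
    rw [eval_eq_sum_range, sum_range_succ]; rfl
  have h2 : ‖g.leadingCoeff * z ^ d‖ = ‖z‖ ^ d := by rw [norm_mul, hl, one_mul, norm_pow]
  have h3 : ‖∑ i ∈ range d, g.coeff i * z ^ i‖ ≤ ‖z‖ ^ (d - 1) := by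
    refine IsUltrametricDist.norm_sum_le_of_forall_le_of_nonneg (by positivity) fun i hi => ?_
    rw [norm_mul, norm_pow]
    calc ‖g.coeff i‖ * ‖z‖ ^ i ≤ 1 * ‖z‖ ^ (d - 1) := by
          gcongr
          · exact hc i
          · exact hz.le
          · have := mem_range.1 hi; omega
      _ = _ := one_mul _
  have h4 : ‖z‖ ^ (d - 1) < ‖z‖ ^ d := pow_lt_pow_right₀ hz (by omega)
  have h5 : ‖∑ i ∈ range d, g.coeff i * z ^ i‖ ≠ ‖g.leadingCoeff * z ^ d‖ := by
    rw [h2]; exact (h3.trans_lt h4).ne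
  rw [h1, IsUltrametricDist.norm_add_eq_max_of_norm_ne_norm h5, h2]
  refine lt_max_of_lt_right ?_
  calc ‖z‖ = ‖z‖ ^ 1 := (pow_one _).symm
    _ < ‖z‖ ^ d := pow_lt_pow_right₀ hz (by omega)

theorem period_bound_padic {p : ℕ} [Fact p.Prime] (hodd : Odd p) (g : ℚ_[p][X])
    (hc : ∀ i, ‖g.coeff i‖ ≤ 1) (hl : ‖g.leadingCoeff‖ = 1) (hd : 2 ≤ g.natDegree) (y : ℚ_[p])
    {k : ℕ} (hk : 0 < k) (hper : (fun x => g.eval x)^[k] y = y) :
    (fun x => g.eval x)^[(p ^ 2).factorial * (p - 1)] y = y := by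
  have hy : ‖y‖ ≤ 1 := by
    by_contra hy
    push Not at hy
    have key : ∀ n, ‖y‖ < ‖(fun x => g.eval x)^[n + 1] y‖ := by
      intro n
      induction n with
      | zero => simpa using norm_eval_of_one_lt g hc hl hd hy
      | succ n ih =>
        rw [Function.iterate_succ_apply']
        exact ih.trans (norm_eval_of_one_lt g hc hl hd (hy.trans ih))
    obtain ⟨k', rfl⟩ := Nat.exists_eq_succ_of_ne_zero hk.ne'
    have := key k'
    rw [hper] at this
    exact lt_irrefl _ this
  have hlift : g ∈ lifts (algebraMap ℤ_[p] ℚ_[p]) := by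
    rw [lifts_iff_coeff_lifts]
    intro n
    exact ⟨⟨g.coeff n, hc n⟩, rfl⟩
  obtain ⟨G, hG⟩ := (mem_lifts g).1 hlift
  have hsemi : Function.Semiconj (algebraMap ℤ_[p] ℚ_[p]) (fun x => G.eval x)
      (fun x => g.eval x) := by
    intro x
    simp only [← hG, eval_map, eval₂_at_apply]
  set Y : ℤ_[p] := ⟨y, hy⟩ with hY
  have hYy : algebraMap ℤ_[p] ℚ_[p] Y = y := rfl
  have hinj : Function.Injective (algebraMap ℤ_[p] ℚ_[p]) := Subtype.val_injective
  have hperY : (fun x => G.eval x)^[k] Y = Y := by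
    apply hinj
    rw [(hsemi.iterate_right k) Y, hYy, hper]
  have := period_bound_padicInt hodd G Y hk hperY
  rw [← hYy, ← (hsemi.iterate_right _) Y, this]

theorem norm_le_one_of_isIntegral {p : ℕ} [Fact p.Prime] {x : ℚ_[p]} (hx : IsIntegral ℤ x) :
    ‖x‖ ≤ 1 := by
  have h1 : IsIntegral ℤ_[p] x := hx.tower_top
  obtain ⟨y, hy⟩ := IsIntegrallyClosed.isIntegral_iff.1 h1
  rw [← hy]
  exact y.2

theorem exists_root_padic {p : ℕ} [Fact p.Prime] (hodd : Odd p) {Q : ℕ}
    (hQp : ¬ p ∣ Q) (hQ : Nat.Coprime (p - 1) Q) : ∃ z : ℚ_[p], z ^ Q = 2 := by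
  have hp : p.Prime := Fact.out
  have h2 : (2 : ZMod p) ≠ 0 := by
    intro h
    have : p ∣ 2 := (ZMod.natCast_eq_zero_iff 2 p).1 (by exact_mod_cast h)
    have := (Nat.prime_dvd_prime_iff_eq hp Nat.prime_two).1 this
    rw [this] at hodd
    exact absurd hodd (by decide)
  have hcop : Nat.Coprime (Nat.card (ZMod p)ˣ) Q := by
    rwa [Nat.card_eq_fintype_card, ZMod.card_units]
  obtain ⟨b, hb⟩ := (powCoprime hcop).surjective (Units.mk0 2 h2)
  have hb' : (b : ZMod p) ^ Q = 2 := by
    have := congrArg (fun u : (ZMod p)ˣ => (u : ZMod p)) hb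
    simpa [powCoprime_apply] using this
  obtain ⟨a, ha⟩ : ∃ a : ℤ_[p], PadicInt.toZMod a = (b : ZMod p) :=
    ⟨((b : ZMod p).val : ℤ_[p]), by simp⟩
  have hlt : ∀ x : ℤ_[p], ‖x‖ < 1 ↔ PadicInt.toZMod x = 0 := by
    intro x
    rw [← RingHom.mem_ker, PadicInt.ker_toZMod, PadicInt.mem_nonunits.symm]
    rfl
  set F : ℤ_[p][X] := X ^ Q - C 2 with hF
  have hF1 : ‖F.aeval a‖ < 1 := by
    rw [hlt]
    simp [hF, ha, hb', map_ofNat]
  have hF2 : ‖F.derivative.aeval a‖ = 1 := by
    refine le_antisymm (PadicInt.norm_le_one _) (not_lt.1 fun h => ?_)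
    rw [hlt] at h
    simp only [hF, derivative_sub, derivative_X_pow, derivative_C, sub_zero, map_mul,
      map_natCast, map_pow, aeval_X, ha, mul_eq_zero] at h
    rcases h with h | h
    · exact hQp ((ZMod.natCast_eq_zero_iff Q p).1 h)
    · exact b.ne_zero (eq_zero_of_pow_eq_zero h)
  obtain ⟨z, hz, -⟩ := hensels_lemma (F := F) (a := a) (by rw [hF2]; simpa using hF1)
  refine ⟨z, ?_⟩
  have : z ^ Q = 2 := by
    simpa [hF, sub_eq_zero] using hz
  have h3 := congrArg (algebraMap ℤ_[p] ℚ_[p]) this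
  rw [map_pow, map_ofNat] at h3
  exact h3

end Pool.Agent.P.MP_8d2e9f_nt
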