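import Mathlib
import Pool.Agent.P.MP_8d2e9f_nt.Padic
import Pool.Agent.P.MP_8d2e9f_nt.Orbit

/-!
The radical tower `ℚ(γ 0) ⊆ ℚ(γ 1) ⊆ ⋯` with `γ 0 = 2`, `γ (n + 1) ^ q n = γ n`, and the proof that
its union has no infinite subset mapped onto itself by a polynomial of degree at least two.
-/

namespace Pool.Agent.P.MP_8d2e9f_nt

open Polynomial IntermediateField Module

theorem exists_prime_seq : ∃ q : ℕ → ℕ, (∀ i, (q i).Prime) ∧ (∀ i, Odd (q i)) ∧ (∀ i, i < q i) ∧
    ∀ N, ∃ p, N < p ∧ p.Prime ∧ ∀ i, ¬ p ∣ q i ∧ Nat.Coprime (p - 1) (q i) := by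
  have h1 : ∀ m : ℕ, ∃ r, r.Prime ∧ m + 2 < r := fun m => by
    obtain ⟨r, hr, hr'⟩ := Nat.exists_infinite_primes (m + 3)
    exact ⟨r, hr', by omega⟩
  choose nq hnq hnq' using h1
  have h2 : ∀ Q m : ℕ, Odd Q → ∃ r, r.Prime ∧ m < r ∧ r ≡ 2 [MOD Q] := fun Q m hQ => by
    obtain ⟨r, hr, hr', hr''⟩ := Nat.forall_exists_prime_gt_and_modEq m (q := Q) (a := 2)
      hQ.pos.ne' ((Nat.coprime_two_left).2 hQ)
    exact ⟨r, hr', hr, hr''⟩
  choose! np hnp hnp' hnp'' using h2
  let s : ℕ → ℕ × ℕ := fun n => Nat.rec (1, 0)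
    (fun n t => (t.1 * nq (t.2 + n), np (t.1 * nq (t.2 + n)) (t.2 + n))) n
  let q : ℕ → ℕ := fun n => nq ((s n).2 + n)
  have hs1 : ∀ n, (s (n + 1)).1 = (s n).1 * q n := fun n => rfl
  have hs2 : ∀ n, (s (n + 1)).2 = np (s (n + 1)).1 ((s n).2 + n) := fun n => rfl
  have hqp : ∀ i, (q i).Prime := fun i => hnq _
  have hq2 : ∀ i, (s i).2 + i + 2 < q i := fun i => hnq' _
  have hqo : ∀ i, Odd (q i) := fun i => (hqp i).odd_of_ne_two (by have := hq2 i; omega)
  have hso : ∀ n, Odd (s n).1 := by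
    intro n
    induction n with
    | zero => exact odd_one
    | succ n ih => rw [hs1]; exact ih.mul (hqo n)
  have hlt : ∀ n, (s n).2 + n < (s (n + 1)).2 := fun n => by
    rw [hs2]; exact hnp' _ _ (hso (n + 1))
  have hmono : Monotone fun n => (s n).2 :=
    monotone_nat_of_le_succ fun n => by have := hlt n; omega
  have hdvd : ∀ n i, i < n → q i ∣ (s n).1 := by
    intro n
    induction n with
    | zero => intro i hi; omega
    | succ n ih =>
      intro i hi
      rw [hs1]
      rcases Nat.lt_succ_iff_lt_or_eq.1 hi with h | h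
      · exact (ih i h).mul_right _
      · rw [h]; exact Dvd.intro_left _ rfl
  refine ⟨q, hqp, hqo, fun i => by have := hq2 i; omega, fun N => ?_⟩
  have hp : ((s (N + 1)).2).Prime := by rw [hs2]; exact hnp _ _ (hso (N + 1))
  have hmod : (s (N + 1)).2 ≡ 2 [MOD (s (N + 1)).1] := by
    rw [hs2]; exact hnp'' _ _ (hso (N + 1))
  refine ⟨(s (N + 1)).2, by have := hlt N; omega, hp, fun i => ?_⟩
  set p := (s (N + 1)).2 with hpdef
  have hp2 := hp.two_le
  rcases lt_or_ge i (N + 1) with h | h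
  · have hm : p ≡ 2 [MOD q i] := hmod.of_dvd (hdvd _ _ h)
    have hq3 : 2 < q i := by have := hq2 i; omega
    constructor
    · intro hd
      have := (Nat.prime_dvd_prime_iff_eq hp (hqp i)).1 hd
      rw [← this] at hm hq3
      have h3 : p ∣ 2 := 
        Nat.modEq_zero_iff_dvd.1 (hm.symm.trans (Nat.modEq_zero_iff_dvd.2 (dvd_refl p)))
      exact absurd (Nat.le_of_dvd two_pos h3) (by omega)
    · rw [Nat.coprime_comm, (hqp i).coprime_iff_not_dvd]
      intro hd
      have h3 : q i ∣ p - 2 := (Nat.modEq_iff_dvd' hp2).1 hm.symm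
      have h4 : q i ∣ (p - 1) - (p - 2) := Nat.dvd_sub hd h3
      have h5 : (p - 1) - (p - 2) = 1 := by omega
      rw [h5] at h4
      exact (hqp i).one_lt.ne' (Nat.dvd_one.1 h4)
  · have h3 : p ≤ (s i).2 := hmono h
    have h4 : p < q i := by have := hq2 i; omega
    constructor
    · intro hd
      have := (Nat.prime_dvd_prime_iff_eq hp (hqp i)).1 hd
      omega
    · rw [Nat.coprime_comm, (hqp i).coprime_iff_not_dvd]
      intro hd
      have := Nat.le_of_dvd (by omega) hd
      omega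

theorem irreducible_X_pow_sub_two {Q : ℕ} (hQ : Odd Q) :
    Irreducible (X ^ Q - C (2 : ℚ)) := by
  refine X_pow_sub_C_irreducible_of_odd hQ fun p hp _ b hb => ?_
  have hb0 : b ≠ 0 := by
    rintro rfl
    rw [zero_pow hp.ne_zero] at hb
    exact absurd hb (by norm_num)
  have h1 := congrArg (padicValRat 2) hb
  have h2 : padicValRat 2 (2 : ℚ) = 1 := by
    have := padicValRat.self (p := 2) one_lt_two
    exact_mod_cast this
  rw [padicValRat.pow, h2] at h1
  have h3 : (p : ℤ) ∣ 1 := ⟨_, h1.symm⟩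
  have h4 : p ∣ 1 := by exact_mod_cast h3
  exact hp.one_lt.ne' (Nat.dvd_one.1 h4)

section tower

variable {Ω : Type*} [Field Ω] [CharZero Ω]

theorem exists_lift (E : IntermediateField ℚ Ω) (g : Polynomial Ω) (hg : ∀ i, g.coeff i ∈ E) :
    ∃ g' : Polynomial E, g'.map (algebraMap E Ω) = g := by
  have hlift : g ∈ lifts (algebraMap E Ω) := by
    rw [lifts_iff_coeff_lifts]
    intro n
    exact ⟨⟨g.coeff n, hg n⟩, rfl⟩
  exact (mem_lifts g).1 hlift

theorem minpoly_root {Q : ℕ} (hQ : Odd Q) {γ : Ω} (hγ : γ ^ Q = 2) :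
    minpoly ℚ γ = X ^ Q - C 2 := by
  symm
  refine minpoly.eq_of_irreducible_of_monic (irreducible_X_pow_sub_two hQ) ?_
    (monic_X_pow_sub_C _ hQ.pos.ne')
  simp [hγ, map_ofNat]

theorem isIntegral_root {Q : ℕ} (hQ : Odd Q) {γ : Ω} (hγ : γ ^ Q = 2) : IsIntegral ℚ γ :=
  ⟨X ^ Q - C 2, monic_X_pow_sub_C _ hQ.pos.ne', by simp [hγ, map_ofNat]⟩

theorem finrank_root {Q : ℕ} (hQ : Odd Q) {γ : Ω} (hγ : γ ^ Q = 2) : finrank ℚ ℚ⟮γ⟯ = Q := by
  rw [adjoin.finrank (isIntegral_root hQ hγ), minpoly_root hQ hγ, natDegree_X_pow_sub_C]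

theorem mem_of_prime_step {A B : IntermediateField ℚ Ω} (hAB : A ≤ B) [FiniteDimensional ℚ B]
    {q : ℕ} (hq : q.Prime) (hdeg : finrank ℚ B = finrank ℚ A * q) {P : Polynomial Ω} (hP0 : P ≠ 0)
    (hP : ∀ i, P.coeff i ∈ A) (hPq : P.natDegree < q) {y : Ω} (hy : y ∈ B) (hroot : P.eval y = 0) :
    y ∈ A := by
  let : Algebra A B := (inclusion hAB).toRingHom.toAlgebra
  have : FiniteDimensional ℚ A := FiniteDimensional.left ℚ A B
  have : FiniteDimensional A B := FiniteDimensional.right ℚ A B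
  have hmul : finrank ℚ A * finrank A B = finrank ℚ B := finrank_mul_finrank ℚ A B
  have hq' : finrank A B = q := by
    rw [hdeg] at hmul
    exact Nat.eq_of_mul_eq_mul_left finrank_pos hmul
  obtain ⟨P', hP'⟩ := exists_lift A P hP
  have hP'0 : P' ≠ 0 := by
    rintro rfl
    exact hP0 (by rw [← hP', Polynomial.map_zero])
  have hdegP : P'.natDegree = P.natDegree := by rw [← hP', natDegree_map]
  set y' : B := ⟨y, hy⟩ with hy'
  have hint : IsIntegral A y' := Algebra.IsIntegral.isIntegral _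
  have hae : aeval y' P' = 0 := by
    apply (algebraMap B Ω).injective
    rw [map_zero, aeval_def, hom_eval₂, ← hroot, ← hP', eval_map]
    rfl
  have h1 : (minpoly A y').natDegree ≤ P'.natDegree :=
    natDegree_le_natDegree (minpoly.degree_le_of_ne_zero A y' hP'0 hae)
  have h2 : (minpoly A y').natDegree ∣ q := hq' ▸ minpoly.degree_dvd hint
  have h3 : (minpoly A y').natDegree = 1 := by
    rcases (Nat.dvd_prime hq).1 h2 with h | h
    · exact h
    · omega
  obtain ⟨a, ha⟩ := minpoly.natDegree_eq_one_iff.1 h3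
  have : (a : Ω) = y := congrArg Subtype.val ha
  rw [← this]
  exact a.2

theorem exists_embedding {Q : ℕ} (hQ : Odd Q) {γ : Ω} (hγ : γ ^ Q = 2) {p : ℕ} [Fact p.Prime]
    (hodd : Odd p) (hQp : ¬ p ∣ Q) (hcop : Nat.Coprime (p - 1) Q) :
    Nonempty (ℚ⟮γ⟯ →+* ℚ_[p]) := by
  obtain ⟨z, hz⟩ := exists_root_padic hodd hQp hcop
  have hint := isIntegral_root hQ hγ
  have h : aeval z (minpoly ℚ (adjoin.powerBasis hint).gen) = 0 := by
    have h' : minpoly ℚ (adjoin.powerBasis hint).gen = minpoly ℚ γ := minpoly_gen ℚ γ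
    rw [h', minpoly_root hQ hγ]
    simp [hz, map_ofNat]
  exact ⟨((adjoin.powerBasis hint).lift z h).toRingHom⟩

theorem period_bound_of_embedding (E : IntermediateField ℚ Ω) {p : ℕ} [Fact p.Prime]
    (hodd : Odd p) (ι : E →+* ℚ_[p]) (g : Polynomial Ω) (hg : ∀ i, g.coeff i ∈ E) (hd : 2 ≤ g.natDegree)
    {D : ℕ} (hpD : ¬ p ∣ D) (hD : ∀ i, IsIntegral ℤ ((D : Ω) * g.coeff i))
    (hD' : IsIntegral ℤ ((D : Ω) * g.leadingCoeff⁻¹)) {y : Ω} (hy : y ∈ E) {k : ℕ} (hk : 0 < k)
    (hper : (fun x => g.eval x)^[k] y = y) :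
    (fun x => g.eval x)^[(p ^ 2).factorial * (p - 1)] y = y := by
  obtain ⟨g', hg'⟩ := exists_lift E g hg
  have hinj : Function.Injective (algebraMap E Ω) := (algebraMap E Ω).injective
  have hDn : ‖(D : ℚ_[p])‖ = 1 := by
    rw [Padic.norm_natCast_eq_one_iff]
    exact ((Fact.out : p.Prime).coprime_iff_not_dvd).2 hpD
  have key : ∀ a : E, IsIntegral ℤ ((D : Ω) * algebraMap E Ω a) → ‖ι a‖ ≤ 1 := by
    intro a ha
    have h1 : IsIntegral ℤ ((D : E) * a) := by
      rw [← isIntegral_algHom_iff (algebraMap E Ω).toIntAlgHom hinj]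
      simpa using ha
    have h2 := norm_le_one_of_isIntegral (h1.map ι.toIntAlgHom)
    simp only [RingHom.toIntAlgHom_apply, map_mul, map_natCast, norm_mul, hDn, one_mul] at h2
    exact h2
  have hdeg : g'.natDegree = g.natDegree := by rw [← hg', natDegree_map]
  have hg'0 : g' ≠ 0 := by
    rintro rfl
    rw [natDegree_zero] at hdeg
    omega
  have hc : ∀ i, ‖(g'.map ι).coeff i‖ ≤ 1 := by
    intro i
    rw [coeff_map]
    apply key
    rw [← coeff_map, hg']
    exact hD i
  have hl : ‖(g'.map ι).leadingCoeff‖ = 1 := by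
    refine le_antisymm (hc _) ?_
    rw [leadingCoeff_map]
    have h1 : ‖ι g'.leadingCoeff⁻¹‖ ≤ 1 := by
      apply key
      rw [map_inv₀, ← leadingCoeff_map, hg']
      exact hD'
    have h2 : 0 < ‖ι g'.leadingCoeff‖ := by
      rw [norm_pos_iff, _root_.map_ne_zero]
      exact leadingCoeff_ne_zero.2 hg'0
    rwa [map_inv₀, norm_inv, inv_le_one₀ h2] at h1
  have hs1 : Function.Semiconj (algebraMap E Ω) (fun x => g'.eval x) (fun x => g.eval x) := by
    intro x
    simp only [← hg', eval_map, eval₂_at_apply]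
  have hs2 : Function.Semiconj ι (fun x => g'.eval x) (fun x => (g'.map ι).eval x) := by
    intro x
    simp only [eval_map, eval₂_at_apply]
  set Y : E := ⟨y, hy⟩ with hY
  have hYy : algebraMap E Ω Y = y := rfl
  have hperY : (fun x => g'.eval x)^[k] Y = Y := by
    apply hinj
    rw [(hs1.iterate_right k) Y, hYy, hper]
  have h3 := period_bound_padic hodd (g'.map ι) hc hl (by rw [natDegree_map, hdeg]; exact hd)
    (ι Y) hk (by rw [← (hs2.iterate_right k) Y, hperY])
  rw [← (hs2.iterate_right _) Y] at h3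
  rw [← hYy, ← (hs1.iterate_right _) Y, ι.injective h3]

theorem no_backward_orbit_in (E : IntermediateField ℚ Ω) [FiniteDimensional ℚ E]
    (g : Polynomial Ω) (hg : ∀ i, g.coeff i ∈ E) (hd : 2 ≤ g.natDegree) (x : ℕ → Ω)
    (hxE : ∀ i, x i ∈ E) (hx : ∀ i, g.eval (x (i + 1)) = x i) : ¬ Function.Injective x := by
  intro hxinj
  have : NumberField E := {}
  obtain ⟨g', hg'⟩ := exists_lift E g hg
  refine no_backward_orbit g' (by rw [← hg', natDegree_map] at hd; exact hd)
    (fun i => ⟨x i, hxE i⟩) (fun i => ?_) (fun i j h => hxinj (congrArg Subtype.val h))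
  have h4 := hx i
  rw [← hg', eval_map] at h4
  have h5 := eval₂_at_apply (p := g') (algebraMap E Ω) ⟨x (i + 1), hxE (i + 1)⟩
  apply Subtype.ext
  exact h5.symm.trans h4

theorem exists_field [IsAlgClosed Ω] [Algebra.IsAlgebraic ℚ Ω] :
    ∃ F : IntermediateField ℚ Ω,
      (∀ g : Polynomial Ω, (∀ i, g.coeff i ∈ F) → 2 ≤ g.natDegree → ∀ S : Set Ω, S ⊆ F → S.Infinite →
        (fun x => g.eval x) '' S ≠ S) ∧
      ∀ n : ℕ, ∃ γ ∈ F, ∃ Q : ℕ, n < Q ∧ γ ^ Q = 2 := by
  classical
  obtain ⟨q, hqp, hqo, hqi, hT⟩ := exists_prime_seq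
  have h1 : ∀ (x : Ω) (n : ℕ), ∃ z : Ω, z ^ q n = x := fun x n =>
    IsAlgClosed.exists_pow_nat_eq x (hqp n).pos
  choose r hr using h1
  let γ : ℕ → Ω := fun n => Nat.rec 2 (fun n x => r x n) n
  have hγs : ∀ n, γ (n + 1) ^ q n = γ n := fun n => hr _ _
  let Q : ℕ → ℕ := fun n => ∏ i ∈ Finset.range n, q i
  have hQs : ∀ n, Q (n + 1) = Q n * q n := fun n => Finset.prod_range_succ _ _
  have hQo : ∀ n, Odd (Q n) := by
    intro n
    induction n with
    | zero => exact odd_one
    | succ n ih => rw [hQs]; exact ih.mul (hqo n)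
  have hγQ : ∀ n, γ n ^ Q n = 2 := by
    intro n
    induction n with
    | zero => exact pow_one _
    | succ n ih => rw [hQs, mul_comm, pow_mul, hγs, ih]
  let K : ℕ → IntermediateField ℚ Ω := fun n => ℚ⟮γ n⟯
  have hKs : ∀ n, K n ≤ K (n + 1) := by
    intro n
    change ℚ⟮γ n⟯ ≤ ℚ⟮γ (n + 1)⟯
    rw [adjoin_simple_le_iff, ← hγs]
    exact pow_mem (mem_adjoin_simple_self ℚ _) _
  have hKmono : Monotone K := monotone_nat_of_le_succ hKs
  have hKfin : ∀ n, FiniteDimensional ℚ (K n) := fun n =>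
    adjoin.finiteDimensional (isIntegral_root (hQo n) (hγQ n))
  have hKrank : ∀ n, finrank ℚ (K n) = Q n := fun n => finrank_root (hQo n) (hγQ n)
  have hmem : ∀ y : Ω, y ∈ (⨆ n, K n) → ∃ n, y ∈ K n := by
    intro y hy
    rwa [← SetLike.mem_coe, coe_iSup_of_directed hKmono.directed_le, Set.mem_iUnion] at hy
  have hdescent : ∀ (n : ℕ) (P : Polynomial Ω), P ≠ 0 → (∀ i, P.coeff i ∈ K n) → P.natDegree ≤ n →
      ∀ y : Ω, P.eval y = 0 → ∀ m, n ≤ m → y ∈ K m → y ∈ K n := by
    intro n P hP0 hP hPn y hroot m hm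
    induction m, hm using Nat.le_induction with
    | base => exact id
    | succ m hm ih =>
      intro hy
      have := hKfin (m + 1)
      refine ih (mem_of_prime_step (hKs m) (hqp m) 
        ((hKrank (m + 1)).trans ((hQs m).trans (congrArg (· * q m) (hKrank m).symm))) hP0
        (fun i => hKmono hm (hP i)) ?_ hy hroot)
      have := hqi m
      omega
  refine ⟨⨆ n, K n, ?_, fun n => ⟨γ (n + 1), le_iSup K (n + 1) (mem_adjoin_simple_self ℚ _),
    Q (n + 1), ?_, hγQ _⟩⟩
  swap
  · rw [hQs]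
    have := hqi n
    have := (hQo n).pos
    nlinarith
  intro g hg hd S hS hinf himg
  have hg0 : g ≠ 0 := by rintro rfl; simp at hd
  -- all coefficients lie in one layer
  obtain ⟨n₀, hn₀⟩ : ∃ n₀, ∀ i, g.coeff i ∈ K n₀ := by
    choose c hc using fun i => hmem _ (hg i)
    refine ⟨(Finset.range (g.natDegree + 1)).sup c, fun i => ?_⟩
    rcases le_or_gt i g.natDegree with h | h
    · exact hKmono (Finset.le_sup (f := c) (Finset.mem_range.2 (by omega))) (hc i)
    · rw [coeff_eq_zero_of_natDegree_lt h]; exact zero_mem _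
  by_cases hper : ∀ y ∈ S, ∃ k, 0 < k ∧ (fun x => g.eval x)^[k] y = y
  · obtain ⟨D, hD0, hD⟩ := exists_common_denominator (insert g.leadingCoeff⁻¹ g.coeffs)
    obtain ⟨p, hp, hpp, hpq⟩ := hT (D + 2)
    have : Fact p.Prime := ⟨hpp⟩
    have hodd : Odd p := hpp.odd_of_ne_two (by omega)
    have hpD : ¬ p ∣ D := fun h => by
      have := Nat.le_of_dvd (Nat.pos_of_ne_zero hD0) h
      omega
    have hN : 0 < (p ^ 2).factorial * (p - 1) :=
      Nat.mul_pos (Nat.factorial_pos _) (by omega)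
    refine hinf ((finite_fixed_iterate g hd hN).subset fun y hy => ?_)
    obtain ⟨k, hk, hky⟩ := hper y hy
    obtain ⟨m, hm⟩ := hmem y (hS hy)
    have hQp : ¬ p ∣ Q (max m n₀) := by
      intro h
      obtain ⟨i, -, hi⟩ := (Prime.dvd_finsetProd_iff hpp.prime _).1 h
      exact (hpq i).1 hi
    have hcop : Nat.Coprime (p - 1) (Q (max m n₀)) :=
      Nat.Coprime.prod_right fun i _ => (hpq i).2
    obtain ⟨ι⟩ := exists_embedding (hQo (max m n₀)) (hγQ _) hodd hQp hcop
    refine period_bound_of_embedding (K (max m n₀)) hodd ι g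
      (fun i => hKmono (le_max_right _ _) (hn₀ i)) hd hpD (fun i => ?_) (hD _ (by simp))
      (hKmono (le_max_left _ _) hm) hk hky
    by_cases hc : g.coeff i = 0
    · rw [hc, mul_zero]; exact isIntegral_zero
    · exact hD _ (Finset.mem_insert_of_mem (coeff_mem_coeffs hc))
  · push Not at hper
    obtain ⟨y₀, hy₀, hnp⟩ := hper
    have h2 : ∀ x ∈ S, ∃ z ∈ S, g.eval z = x := fun x hx => by
      rw [← himg] at hx
      exact hx
    choose! s hs hs' using h2
    let x : ℕ → Ω := fun i => s^[i] y₀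
    have hxS : ∀ i, x i ∈ S := by
      intro i
      induction i with
      | zero => exact hy₀
      | succ i ih =>
        change s^[i + 1] y₀ ∈ S
        rw [Function.iterate_succ_apply']
        exact hs _ ih
    have hxs : ∀ i, g.eval (x (i + 1)) = x i := by
      intro i
      change g.eval (s^[i + 1] y₀) = _
      rw [Function.iterate_succ_apply']
      exact hs' _ (hxS i)
    have hx0 : ∀ i, (fun x => g.eval x)^[i] (x i) = y₀ := by
      intro i
      induction i with
      | zero => rfl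
      | succ i ih => rw [Function.iterate_succ_apply, hxs, ih]
    have hlt : ∀ i j, i < j → x i ≠ x j := by
      intro i j hij h
      refine hnp (j - i) (by omega) ?_
      have h3 := hx0 j
      rw [← h, show j = (j - i) + i by omega, Function.iterate_add_apply, hx0 i] at h3
      exact h3
    have hxinj : Function.Injective x := by
      intro i j h
      rcases lt_trichotomy i j with h' | h' | h'
      · exact absurd h (hlt i j h')
      · exact h'
      · exact absurd h.symm (hlt j i h')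
    obtain ⟨m₀, hm₀⟩ := hmem y₀ (hS hy₀)
    set n := max (max m₀ n₀) g.natDegree with hn
    have hgn : ∀ i, g.coeff i ∈ K n := fun i =>
      hKmono ((le_max_right _ _).trans (le_max_left _ _)) (hn₀ i)
    have hxK : ∀ i, x i ∈ K n := by
      intro i
      induction i with
      | zero => exact hKmono ((le_max_left _ _).trans (le_max_left _ _)) hm₀
      | succ i ih =>
        obtain ⟨m, hm⟩ := hmem _ (hS (hxS (i + 1)))
        have hdeg : (g - C (x i)).natDegree = g.natDegree := natDegree_sub_C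
        refine hdescent n (g - C (x i)) ?_ ?_ (by rw [hdeg]; exact le_max_right _ _) _ ?_
          (max m n) (le_max_right _ _) (hKmono (le_max_left _ _) hm)
        · intro h
          rw [h, natDegree_zero] at hdeg
          omega
        · intro j
          rw [coeff_sub, coeff_C]
          refine sub_mem (hgn j) ?_
          split_ifs
          · exact ih
          · exact zero_mem _
        · rw [eval_sub, eval_C, hxs, sub_self]
    have := hKfin n
    exact no_backward_orbit_in (K n) g hgn hd x hxK hxs hxinj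

end tower

end Pool.Agent.P.MP_8d2e9f_nt
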